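import Pool.Agent.Lib.MP_e1e19a_an.N.W2

/-!
The Eisenstein series of a non-elementary Schottky group has at least `c λ ^ 2` compact nodal
domains inside the interior of the convex core.
-/

namespace Pool.Agent.Results.MP_e1e19a_an.AllSchottky

open UpperHalfPlane Pool.Agent.Lib.MP_e1e19a_an
open scoped MatrixGroups

theorem result (r : ℕ) (hr : 2 ≤ r) (S : SchottkyData (Fin r)) : ∃ N : Set ℝ, N.Countable ∧
    ∀ ξ ∉ N, ξ ∉ limitSet S.group → ∃ l₀ > (0 : ℝ), ∃ E : ℂ → ℍ → ℂ,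
    (∀ z, AnalyticOnNhd ℂ (fun s => E s z) {s | 1 / 2 ≤ s.re ∧ l₀ ≤ s.im}) ∧
    (∀ s : ℂ, 1 < s.re → l₀ ≤ s.im → ∀ z, HasSum (fun γ : S.group =>
      (((γ • z).im / ‖((γ • z : ℍ) : ℂ) - ξ‖ ^ 2 : ℝ) : ℂ) ^ s) (E s z)) ∧
    ∃ c > (0 : ℝ), ∀ l ≥ l₀, ∀ C : ℂ, C ≠ 0 →
      ∃ 𝒟 : Finset (Set (Surf S.group)), c * l ^ 2 ≤ 𝒟.card ∧ ∀ D ∈ 𝒟,
        IsNodalDomain S.group (fun z => (C * E (1 / 2 + l * Complex.I) z).re) D ∧
          IsCompact (closure D) ∧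
          closure D ⊆ interior (proj S.group '' hull (limitSet S.group)) := by
  have : Nontrivial (Fin r) := Fin.nontrivial_iff_two_le.2 hr
  have : Inhabited (Fin r) := ⟨⟨0, by omega⟩⟩
  exact S.main''

end Pool.Agent.Results.MP_e1e19a_an.AllSchottky
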